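import Pool.Agent.H25R3.Cones.Compl
import Pool.Agent.H609R2.NPClosure

/-!
# Consequences of completeness for `NP` and `coNP`
-/

set_option autoImplicit false

namespace Pool.Agent.X248

open Pool.Agent.NPC Pool.Agent.H25R3.Cones

/-- `P = NP` -/
def PEqNP : Prop := ∀ L : Set (List Bool), InNP L → InP L

/-- `NP = coNP` -/
def NPEqCoNP : Prop := ∀ L : Set (List Bool), InNP L ↔ InCoNP L

variable {α : Type} [TEnc α] {P : α → Prop}

theorem inCoNP_compl {L : Set (List Bool)} (h : InNP L) : InCoNP Lᶜ := by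
  unfold InCoNP
  rwa [compl_compl]

theorem coNP_inP_iff (h1 : InCoNPP P) (h2 : CoNPHardP P) : InPP P ↔ PEqNP := by
  refine ⟨fun h => coNPHardP_collapse h2 h, fun h => ?_⟩
  have h3 : InP (lang P)ᶜ := h _ h1
  have h4 := inP_compl h3
  rwa [compl_compl] at h4

theorem coNP_inNP_iff (h1 : InCoNPP P) (h2 : CoNPHardP P) : InNPP P ↔ NPEqCoNP := by
  refine ⟨fun h => ?_, fun h => (h _).2 h1⟩
  have h3 : ∀ L : Set (List Bool), InCoNP L → InNP L := fun L hL =>
    CoNPHard.collapse609 h2 h L hL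
  intro L
  refine ⟨fun hL => ?_, h3 L⟩
  have h4 : InNP Lᶜ := h3 _ (inCoNP_compl hL)
  exact h4

theorem np_inP_iff (h1 : InNPP P) (h2 : NPHardP P) : InPP P ↔ PEqNP :=
  ⟨fun h => NPHard.collapse h2 h, fun h => h _ h1⟩

theorem np_inCoNP_iff (h1 : InNPP P) (h2 : NPHardP P) : InCoNPP P ↔ NPEqCoNP := by
  refine ⟨fun h => ?_, fun h => (h _).1 h1⟩
  have h3 : ∀ L : Set (List Bool), InNP L → InCoNP L := by
    intro L hL
    obtain ⟨f, hf, hfL⟩ := h2 L hL
    refine InNP.of_reduces (L := (lang P)ᶜ) ⟨f, hf, fun x => ?_⟩ h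
    simp only [Set.mem_compl_iff, not_iff_not]
    exact hfL x
  intro L
  refine ⟨h3 L, fun hL => ?_⟩
  have h4 : InCoNP Lᶜ := h3 _ hL
  unfold InCoNP at h4
  rwa [compl_compl] at h4

end Pool.Agent.X248
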