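import Pool.Agent.X248.Cx
import Pool.Agent.H671R2.PolyAuto

/-!
# Search problems: a polynomial-time algorithm would put `NP` in `P`
-/

set_option autoImplicit false

namespace Pool.Agent.X248

open Pool.Agent.NPC

/-- Coding as a bit string is polynomial-time computable. -/
theorem poly_bits' {α β : Type} [TEnc α] [TEnc β] {f : β → α} (hf : Poly f) :
    Poly (fun a => bits (f a)) := by
  have h1 : PC (bits : β → List Bool) (bits : List Bool → List Bool) (fun b => bits (f b)) := by
    refine (PC.comp (g := fun x : List Bool => x) (f := fun b => bits (f b)) (eb := fun x => x)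
      PC.rawIn ?_)
    exact hf
  exact h1

/-- If a polynomial-time algorithm `F` outputs, on the code of `g a`, the code of an object from
which the answer for `a` can be read off in polynomial time, then `P = NP`. -/
theorem search_collapse {α β γ : Type} [TEnc α] [TEnc β] [TDec β] [TEnc γ] {Pr P : α → Prop}
    (h : HardPr Pr P) {g : α → γ} (hg : Poly g) {F : List Bool → List Bool} (hF : PolyTime F)
    {chk : α → β → Bool} (hchk : Poly (fun p : α × β => chk p.1 p.2))
    (hc : ∀ a, Pr a → ∃ b : β, F (bits (g a)) = bits b ∧ (P a ↔ chk a b = true)) : PEqNP := by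
  have hF' : Poly F := poly_of_polyTime hF
  have hd : Poly (fun a => (unbits β (F (bits (g a)))).elim false fun b => chk a b) := by
    refine Poly.optElim (poly_unbits.comp (hF'.comp (poly_bits' hg))) (NPC.Poly.const _) ?_
    exact hchk
  refine h.collapse hd fun a ha => ?_
  obtain ⟨b, hb, hb'⟩ := hc a ha
  rw [hb, unbits_bits]
  exact hb'

end Pool.Agent.X248
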