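import Pool.Agent.Y620.TH.NF
import Pool.Agent.X248.Search

/-!
# The class of parallel access to `NP`: general lemmas
-/

set_option autoImplicit false

namespace Pool.Agent.X248

open Pool.Agent.NPC Pool.Agent.Y650.TH

variable {α β κ : Type} [TEnc α] [TEnc β] [TEnc κ]

theorem polyTime_iff_poly_list {f : List Bool → List Bool} (hf : PolyTime f) : Poly f :=
  poly_of_polyTime hf

/-- Membership by parallel queries to a typed problem in `NP`. -/
theorem inTheta2_of [TDec α] {P : α → Prop} {Q : κ → Prop} (hQ : InNPP Q) {qs : α → List κ}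
    (hqs : Poly qs) {e : α → List Bool → Bool} (he : Poly (fun p : α × List Bool => e p.1 p.2))
    (h : ∀ a (ans : List Bool), List.Forall₂ (fun b k => (b = true ↔ Q k)) ans (qs a) →
      (P a ↔ e a ans = true)) : InTheta2 (lang P) := by
  classical
  let q : List Bool → List (List Bool) := fun x =>
    (unbits α x).elim [] fun a => (qs a).map fun k => bits k
  have hq : Poly q := by
    refine Poly.optElim (h := fun _ a => (qs a).map fun k => bits k) poly_unbits
      (NPC.Poly.const _) ?_
    have h1 : Poly (fun p : List Bool × α => qs p.2) := hqs.comp (Poly.snd Poly.id)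
    exact NPC.Poly.map (F := fun _ k => bits k) h1 (poly_bits' (Poly.snd Poly.id))
  let ev : List Bool → Bool := fun y => (unbits (List Bool × List Bool) y).elim false fun p =>
    (unbits α p.1).elim false fun a => e a p.2
  have hev : Poly ev := by
    refine Poly.optElim (h := fun _ (p : List Bool × List Bool) =>
      (unbits α p.1).elim false fun a => e a p.2) poly_unbits (NPC.Poly.const _) ?_
    refine Poly.optElim (o := fun z : List Bool × (List Bool × List Bool) => unbits α z.2.1)
      (h := fun (z : List Bool × (List Bool × List Bool)) a => e a z.2.2)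
      (poly_unbits.comp (Poly.fst (Poly.snd Poly.id))) (NPC.Poly.const _) ?_
    exact he.comp (g := fun p : α × List Bool => e p.1 p.2)
      (f := fun w : (List Bool × (List Bool × List Bool)) × α => (w.2, w.1.2.2)) (by fun_prop)
  refine ⟨lang Q, fun x => bits (q x), fun y => [ev y], hQ, polyTime_bits hq,
    polyTime_of_poly hev, fun x => ?_⟩
  refine ⟨q x, (q x).map fun y => decide (y ∈ lang Q), rfl, ?_, ?_⟩
  · rw [List.forall₂_map_left_iff]
    exact List.forall₂_same.2 fun y _ => decide_eq_true_iff
  · show _ ↔ [ev (bits (x, (q x).map fun y => decide (y ∈ lang Q)))] = [true]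
    simp only [ev]
    rw [unbits_bits, List.cons.injEq, and_iff_left rfl, mem_lang_iff]
    simp only [q, Option.elim_some]
    cases hx : unbits α x with
    | none => simp
    | some a =>
      simp only [Option.some.injEq, exists_eq_left', Option.elim_some]
      rw [List.map_map]
      refine h a _ ?_
      rw [List.forall₂_map_left_iff]
      refine List.forall₂_same.2 fun k _ => ?_
      simp only [Function.comp_apply, decide_eq_true_eq]
      exact bits_mem_lang

/-- The class is closed under complement. -/
theorem theta2_compl {L : Set (List Bool)} (h : InTheta2 L) : InTheta2 Lᶜ := by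
  obtain ⟨O, q, e, hO, hq, he, h⟩ := h
  have he' : Poly e := poly_of_polyTime he
  refine ⟨O, q, fun y => [!decide (e y = [true])], hO, hq, polyTime_of_poly (by fun_prop),
    fun x => ?_⟩
  obtain ⟨qs, ans, h1, h2, h3⟩ := h x
  refine ⟨qs, ans, h1, h2, ?_⟩
  rw [Set.mem_compl_iff, h3]
  simp

/-- `NP` is contained in the class. -/
theorem theta2_of_inNP {L : Set (List Bool)} (h : InNP L) : InTheta2 L := by
  classical
  refine ⟨L, fun x => bits [x], fun y => [(unbits (List Bool × List Bool) y).elim false
    fun p => decide (p.2 = [true])], h, polyTime_bits (by fun_prop), polyTime_of_poly ?_,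
    fun x => ⟨[x], [decide (x ∈ L)], rfl, ?_, ?_⟩⟩
  · refine Poly.optElim (h := fun _ (p : List Bool × List Bool) => decide (p.2 = [true]))
      poly_unbits (NPC.Poly.const _) (by fun_prop)
  · simp
  · simp only [unbits_bits]
    simp

theorem theta2_of_inCoNP {L : Set (List Bool)} (h : InCoNP L) : InTheta2 L := by
  have h1 := theta2_compl (theta2_of_inNP h)
  rwa [compl_compl] at h1

theorem hardTh_trans {P : α → Prop} {Q : β → Prop} (hP : HardTh P)
    {f : α → β} (hf : Poly f) (h : ∀ a, P a ↔ Q (f a)) : HardTh Q := by
  intro L hL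
  obtain ⟨g, hg, hgL⟩ := hP L hL
  exact ⟨fun x => f (g x), PC.comp hf hg, fun x => (hgL x).trans (h _)⟩

theorem hardTh_reduces {P : α → Prop} (hP : HardTh P) {L : Set (List Bool)}
    (hL : InTheta2 L) : Reduces L (lang P) := by
  obtain ⟨f, hf, hfL⟩ := hP L hL
  refine ⟨fun x => bits (f x), PC.toPolyTime hf, fun x => ?_⟩
  rw [hfL x, bits_mem_lang]

theorem hardTh_not {P : α → Prop} (hP : HardTh P) : HardTh (fun a => ¬ P a) := by
  intro L hL
  obtain ⟨f, hf, hfL⟩ := hP Lᶜ (theta2_compl hL)
  refine ⟨f, hf, fun x => ?_⟩
  show _ ↔ ¬ P (f x)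
  rw [← hfL x, Set.mem_compl_iff, not_not]

theorem hardTh_np {P : α → Prop} (hP : HardTh P) : NPHardP P := fun _ hL =>
  hardTh_reduces hP (theta2_of_inNP hL)

theorem hardTh_conp {P : α → Prop} (hP : HardTh P) : CoNPHardP P := fun _ hL =>
  hardTh_reduces hP (theta2_of_inCoNP hL)

/-- If `P = NP`, then the class is `P`. -/
theorem theta2_inP (h : PEqNP) {L : Set (List Bool)} (hL : InTheta2 L) : InP L := by
  classical
  obtain ⟨O, q, e, hO, hq, he, hL⟩ := hL
  obtain ⟨V, hV, hVO⟩ := h O hO
  have hq' : Poly q := poly_of_polyTime hq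
  have he' : Poly e := poly_of_polyTime he
  have hV' : Poly V := poly_of_polyTime hV
  refine ⟨fun x => [decide (e (bits (x, ((unbits (List (List Bool)) (q x)).elim []
    fun qs => qs.map fun y => decide (V y = [true])))) = [true])], polyTime_of_poly ?_,
    fun x => ?_⟩
  · have h1 : Poly (fun x => (unbits (List (List Bool)) (q x)).elim ([] : List Bool)
        fun qs => qs.map fun y => decide (V y = [true])) := by
      refine Poly.optElim (h := fun _ (qs : List (List Bool)) =>
        qs.map fun y => decide (V y = [true])) (poly_unbits.comp hq') (NPC.Poly.const _) ?_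
      refine NPC.Poly.map (F := fun (_ : List Bool × List (List Bool)) y =>
        decide (V y = [true])) (by fun_prop) ?_
      have h2 : Poly (fun p : (List Bool × List (List Bool)) × List Bool => V p.2) :=
        hV'.comp (by fun_prop)
      fun_prop
    have h3 : Poly (fun x => e (bits (x, (unbits (List (List Bool)) (q x)).elim ([] : List Bool)
        fun qs => qs.map fun y => decide (V y = [true])))) :=
      he'.comp (poly_bits' (Poly.pair Poly.id h1))
    exact Poly.dec_eq h3 (NPC.Poly.const _)
  · obtain ⟨qs, ans, h1, h2, h3⟩ := hL x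
    have h4 : ans = qs.map fun y => decide (V y = [true]) := by
      clear h3 h1
      induction h2 with
      | nil => rfl
      | @cons b y l₁ l₂ h5 h6 ih =>
        rw [List.map_cons, ← ih]
        congr 1
        rw [hVO] at h5
        cases b <;> simp_all
    simp only [h1, unbits_bits, Option.elim_some]
    rw [h3, ← h4]
    simp

theorem hardTh_inP_iff {P : α → Prop} (hP : HardTh P) (hm : InTheta2 (lang P)) :
    InPP P ↔ PEqNP :=
  ⟨fun h => NPHard.collapse (hardTh_np hP) h, fun h => theta2_inP h hm⟩

/-- Looking up an answer. -/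
def ansOf {κ : Type} [DecidableEq κ] (ks : List κ) (ans : List Bool) (k : κ) : Bool :=
  (ks.zip ans).any fun p => decide (p.1 = k) && p.2

theorem ansOf_iff {κ κ' : Type} [DecidableEq κ'] {Q : κ → Prop} {g : κ' → κ} {ks : List κ'}
    {ans : List Bool} (h : List.Forall₂ (fun b k => (b = true ↔ Q k)) ans (ks.map g)) {k : κ'}
    (hk : k ∈ ks) : ansOf ks ans k = true ↔ Q (g k) := by
  unfold ansOf
  rw [List.forall₂_map_right_iff] at h
  rw [List.any_eq_true]
  induction h with
  | nil => simp at hk
  | @cons b a l₁ l₂ h1 h2 ih =>
    simp only [List.zip_cons_cons, List.mem_cons, exists_eq_or_imp, Bool.and_eq_true,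
      decide_eq_true_eq]
    by_cases hak : a = k
    · subst hak
      constructor
      · rintro (⟨_, h⟩ | h)
        · exact h1.1 h
        · by_cases hm : a ∈ l₂
          · exact (ih hm).1 (by simpa using h)
          · obtain ⟨⟨p, b'⟩, hp, hpa, _⟩ := h
            simp only at hpa
            subst hpa
            exact absurd (List.of_mem_zip hp).1 hm
      · intro h
        exact Or.inl ⟨rfl, h1.2 h⟩
    · have hm : k ∈ l₂ := by
        rcases List.mem_cons.1 hk with h | h
        · exact absurd h.symm hak
        · exact h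
      rw [← ih hm]
      simp [hak]

theorem poly_ansOf {α κ : Type} [TEnc α] [TEnc κ] [DecidableEq κ] {ks : α → List κ}
    {ans : α → List Bool} {k : α → κ} (h1 : Poly ks) (h2 : Poly ans) (h3 : Poly k) :
    Poly (fun a => ansOf (ks a) (ans a) (k a)) := by
  unfold ansOf
  fun_prop

end Pool.Agent.X248
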