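import Pool.Agent.NPC.Num
import Pool.Agent.NPC.Dec
import Pool.Agent.H671R2.PolyAuto

/-!
# Closures of monotone operators on finite sets, in polynomial time
-/

set_option autoImplicit false

namespace Pool.Agent.X248

open Pool.Agent.NPC

/-- One step. -/
def stepL (F : List ℕ → ℕ → Bool) (n : ℕ) (L : List ℕ) : List ℕ :=
  (List.range n).filter fun m => decide (m ∈ L) || F L m

/-- The closure of the empty set. -/
def cloL (F : List ℕ → ℕ → Bool) (n : ℕ) : List ℕ :=
  (List.range n).foldl (fun L _ => stepL F n L) []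

section

variable {F : List ℕ → ℕ → Bool} {n : ℕ}

theorem foldl_const_iterate {σ : Type} (g : σ → σ) (l : List ℕ) (s : σ) :
    l.foldl (fun L _ => g L) s = g^[l.length] s := by
  induction l generalizing s with
  | nil => rfl
  | cons a l ih =>
    rw [List.foldl_cons, ih, List.length_cons, Function.iterate_succ_apply]

theorem cloL_eq : cloL F n = (stepL F n)^[n] [] := by
  unfold cloL
  rw [foldl_const_iterate (stepL F n), List.length_range]

theorem mem_stepL {L : List ℕ} {m : ℕ} :
    m ∈ stepL F n L ↔ m < n ∧ (m ∈ L ∨ F L m = true) := by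
  simp [stepL, List.mem_filter]

theorem iter_sub (k : ℕ) : ∀ m ∈ (stepL F n)^[k] [], m < n := by
  cases k with
  | zero => simp
  | succ k =>
    rw [Function.iterate_succ_apply']
    exact fun m hm => (mem_stepL.1 hm).1

theorem iter_mono (k : ℕ) : ∀ m ∈ (stepL F n)^[k] [], m ∈ (stepL F n)^[k + 1] [] := by
  intro m hm
  rw [Function.iterate_succ_apply', mem_stepL]
  exact ⟨iter_sub k m hm, Or.inl hm⟩

theorem iter_sorted (k : ℕ) : ∃ p : ℕ → Bool, (stepL F n)^[k] [] = (List.range n).filter p := by
  cases k with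
  | zero => exact ⟨fun _ => false, by simp⟩
  | succ k =>
    rw [Function.iterate_succ_apply']
    exact ⟨_, rfl⟩

theorem iter_eq_of_mem {k l : ℕ} (h : ∀ m, m ∈ (stepL F n)^[k] [] ↔ m ∈ (stepL F n)^[l] []) :
    (stepL F n)^[k] [] = (stepL F n)^[l] [] := by
  obtain ⟨p, hp⟩ := iter_sorted (F := F) (n := n) k
  obtain ⟨q, hq⟩ := iter_sorted (F := F) (n := n) l
  rw [hp, hq] at h ⊢
  refine List.filter_congr fun m hm => ?_
  have := h m
  rw [List.mem_filter, List.mem_filter] at this
  have h2 : (p m = true) ↔ (q m = true) := by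
    constructor
    · intro hpm; exact (this.1 ⟨hm, hpm⟩).2
    · intro hqm; exact (this.2 ⟨hm, hqm⟩).2
  revert h2
  cases p m <;> cases q m <;> simp

theorem iter_nodup (k : ℕ) : ((stepL F n)^[k] []).Nodup := by
  obtain ⟨p, hp⟩ := iter_sorted (F := F) (n := n) k
  rw [hp]
  exact List.nodup_range.filter _

theorem iter_grow (k : ℕ) (h : (stepL F n)^[k + 1] [] ≠ (stepL F n)^[k] []) :
    ((stepL F n)^[k] []).length < ((stepL F n)^[k + 1] []).length := by
  have h1 : ((stepL F n)^[k] []).toFinset ⊂ ((stepL F n)^[k + 1] []).toFinset := by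
    rw [Finset.ssubset_iff_subset_ne]
    refine ⟨fun m hm => ?_, fun he => h ?_⟩
    · rw [List.mem_toFinset] at hm ⊢
      exact iter_mono k m hm
    · refine iter_eq_of_mem fun m => ?_
      rw [← List.mem_toFinset, ← List.mem_toFinset, he]
  have h2 := Finset.card_lt_card h1
  rwa [List.toFinset_card_of_nodup (iter_nodup k),
    List.toFinset_card_of_nodup (iter_nodup (k + 1))] at h2

theorem iter_stable : (stepL F n)^[n + 1] [] = (stepL F n)^[n] [] := by
  have key : ∀ k, k ≤ ((stepL F n)^[k] []).length ∨
      (stepL F n)^[k + 1] [] = (stepL F n)^[k] [] := by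
    intro k
    induction k with
    | zero => exact Or.inl (Nat.zero_le _)
    | succ k ih =>
      by_cases h : (stepL F n)^[k + 1] [] = (stepL F n)^[k] []
      · right
        rw [Function.iterate_succ_apply', h]
        exact (Function.iterate_succ_apply' (stepL F n) k []).symm.trans h
      · left
        have h1 := iter_grow k h
        rcases ih with ih | ih
        · omega
        · exact absurd ih h
  rcases key (n + 1) with h | h
  · exfalso
    have h1 : ((stepL F n)^[n + 1] []).length ≤ n := by
      obtain ⟨p, hp⟩ := iter_sorted (F := F) (n := n) (n + 1)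
      rw [hp]
      exact (List.length_filter_le _ _).trans (by simp)
    omega
  · -- stable one step later; go back
    by_contra hne
    have h1 := iter_grow n hne
    rcases key n with h2 | h2
    · have h3 : ((stepL F n)^[n + 1] []).length ≤ n := by
        obtain ⟨p, hp⟩ := iter_sorted (F := F) (n := n) (n + 1)
        rw [hp]
        exact (List.length_filter_le _ _).trans (by simp)
      omega
    · exact hne h2

theorem cloL_stable : stepL F n (cloL F n) = cloL F n := by
  rw [cloL_eq]
  exact (Function.iterate_succ_apply' (stepL F n) n []).symm.trans iter_stable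

/-- The closure is the least closed set. -/
theorem mem_cloL (hF : ∀ L L' m, (∀ x ∈ L, x ∈ L') → F L m = true → F L' m = true) {m : ℕ} :
    m ∈ cloL F n ↔ ∀ I : Set ℕ, (∀ L : List ℕ, (∀ x ∈ L, x ∈ I) → ∀ m < n, F L m = true → m ∈ I) →
      m ∈ I := by
  constructor
  · intro hm I hI
    rw [cloL_eq] at hm
    have key : ∀ k, ∀ m ∈ (stepL F n)^[k] [], m ∈ I := by
      intro k
      induction k with
      | zero => simp
      | succ k ih =>
        intro m hm
        rw [Function.iterate_succ_apply', mem_stepL] at hm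
        rcases hm.2 with h | h
        · exact ih m h
        · exact hI _ ih m hm.1 h
    exact key n m hm
  · intro h
    refine h {x | x ∈ cloL F n} fun L hL m hm hFm => ?_
    show m ∈ cloL F n
    rw [← cloL_stable, mem_stepL]
    exact ⟨hm, Or.inr (hF _ _ m hL hFm)⟩

theorem cloL_closed (hF : ∀ L L' m, (∀ x ∈ L, x ∈ L') → F L m = true → F L' m = true)
    {L : List ℕ} (hL : ∀ x ∈ L, x ∈ cloL F n) {m : ℕ} (hm : m < n) (h : F L m = true) :
    m ∈ cloL F n := by
  rw [← cloL_stable, mem_stepL]
  exact ⟨hm, Or.inr (hF _ _ m hL h)⟩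

theorem cloL_lt {m : ℕ} (hm : m ∈ cloL F n) : m < n := by
  rw [cloL_eq] at hm
  exact iter_sub n m hm

end

theorem sz_filter_le' {β : Type} [TEnc β] (p : β → Bool) (l : List β) :
    sz (l.filter p) ≤ sz l := by
  induction l with
  | nil => simp
  | cons a l ih =>
    rw [List.filter_cons]
    split_ifs
    · simp; omega
    · simp; omega

theorem poly_stepL {α : Type} [TEnc α] {n : α → ℕ} {F : α → List ℕ → ℕ → Bool} {L : α → List ℕ}
    (hn : UPoly n) (hL : Poly L)
    (hF : Poly (fun p : (α × List ℕ) × ℕ => F p.1.1 p.1.2 p.2)) :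
    Poly (fun a => stepL (F a) (n a) (L a)) := by
  unfold stepL
  refine Poly.filter (p := fun a m => decide (m ∈ L a) || F a (L a) m) hn.range ?_
  refine Poly.or (by fun_prop) ?_
  exact hF.comp (f := fun p : α × ℕ => ((p.1, L p.1), p.2)) (by fun_prop)

/-- Closures are computable in polynomial time. -/
theorem poly_cloL {α : Type} [TEnc α] {n : α → ℕ} {F : α → List ℕ → ℕ → Bool}
    (hn : UPoly n) (hF : Poly (fun p : (α × List ℕ) × ℕ => F p.1.1 p.1.2 p.2)) :
    Poly (fun a => cloL (F a) (n a)) := by
  unfold cloL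
  obtain ⟨q, hq⟩ := (UPoly.range hn).sz_le
  refine Poly.foldl (F := fun a L _ => stepL (F a) (n a) L) hn.range (NPC.Poly.const _) ?_
    (q + 1) ?_
  · refine poly_stepL (α := α × List ℕ × ℕ) (n := fun p => n p.1) (F := fun p => F p.1)
      (L := fun p => p.2.1) (hn.comp (Poly.fst Poly.id)) (by fun_prop) ?_
    exact hF.comp (f := fun p : ((α × List ℕ × ℕ) × List ℕ) × ℕ => ((p.1.1.1, p.1.2), p.2))
      (by fun_prop)
  · intro a k _
    rw [foldl_const_iterate (stepL (F a) (n a))]
    obtain ⟨p, hp⟩ := iter_sorted (F := F a) (n := n a) (((List.range (n a)).take k).length)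
    rw [hp]
    refine (sz_filter_le' _ _).trans ((hq a).trans ?_)
    simp

end Pool.Agent.X248
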